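import Pool.Agent.MBX.Stmts

/-!
# MBX, row MOM: second moments of the field coordinates
-/

set_option autoImplicit false

open MeasureTheory Complex ProbabilityTheory

noncomputable section

namespace Pool.Agent.MBX.H91

open Pool.Agent.Helper49_Pauli
open Pool.Agent.Loc (γn PB one_le_prod)

variable {ι : Type} [Fintype ι] [DecidableEq ι]

theorem II_add (nfi : NfiStmt) {F G : (ι → ℝ) → X3 → ℝ} (hF : NF F) (hG : NF G) :
    II (fun y x => F y x + G y x) = II F + II G := by
  unfold II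
  exact integral_add (nfi ι F hF) (nfi ι G hG)

theorem II_cmul (c : ℝ) (F : (ι → ℝ) → X3 → ℝ) :
    II (fun y x => c * F y x) = c * II F := by
  unfold II
  exact integral_const_mul c _

theorem II_mono (nfi : NfiStmt) {F G : (ι → ℝ) → X3 → ℝ} (hF : NF F) (hG : NF G)
    (h : ∀ y x, F y x ≤ G y x) : II F ≤ II G := by
  unfold II
  exact integral_mono (nfi ι F hF) (nfi ι G hG) fun z => h z.1 z.2

theorem II_sum (nfi : NfiStmt) {κ : Type} (S : Finset κ) (F : κ → (ι → ℝ) → X3 → ℝ)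
    (hF : ∀ i, NF (F i)) : II (fun y x => ∑ i ∈ S, F i y x) = ∑ i ∈ S, II (F i) := by
  unfold II
  exact integral_finset_sum _ fun i _ => nfi ι (F i) (hF i)

theorem pbc (c : ℝ) : PB (fun _ : ι → ℝ => c) := by
  refine ⟨continuous_const, |c|, 0, abs_nonneg c, fun y => ?_⟩
  simp

theorem pby (i : ι) : PB (fun y : ι → ℝ => y i) := by
  refine ⟨continuous_apply i, 1, 1, zero_le_one, fun y => ?_⟩
  rw [one_mul]
  have h : (1 + |y i|) ^ 1 ≤ ∏ j, (1 + |y j|) ^ 1 := by
    rw [← Finset.mul_prod_erase Finset.univ (fun j => (1 + |y j|) ^ 1) (Finset.mem_univ i)]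
    have h1 : (1 : ℝ) ≤ ∏ j ∈ Finset.univ.erase i, (1 + |y j|) ^ 1 := by
      calc (1 : ℝ) = ∏ _j ∈ Finset.univ.erase i, 1 := by simp
        _ ≤ _ := Finset.prod_le_prod (fun _ _ => zero_le_one)
            (fun j _ => by rw [pow_one]; linarith [abs_nonneg (y j)])
    have h2 : (0 : ℝ) ≤ (1 + |y i|) ^ 1 := by positivity
    nlinarith
  rw [pow_one] at h
  linarith [abs_nonneg (y i)]

theorem pby2 (i : ι) : PB (fun y : ι → ℝ => y i ^ 2) := by
  refine ⟨(continuous_apply i).pow 2, 1, 2, zero_le_one, fun y => ?_⟩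
  rw [one_mul]
  have h : (1 + |y i|) ^ 2 ≤ ∏ j, (1 + |y j|) ^ 2 := by
    rw [← Finset.mul_prod_erase Finset.univ (fun j => (1 + |y j|) ^ 2) (Finset.mem_univ i)]
    have h1 : (1 : ℝ) ≤ ∏ j ∈ Finset.univ.erase i, (1 + |y j|) ^ 2 := by
      calc (1 : ℝ) = ∏ _j ∈ Finset.univ.erase i, 1 := by simp
        _ ≤ _ := Finset.prod_le_prod (fun _ _ => zero_le_one)
            (fun j _ => one_le_pow₀ (by linarith [abs_nonneg (y j)]))
    have h2 : (0 : ℝ) ≤ (1 + |y i|) ^ 2 := by positivity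
    nlinarith
  rw [abs_of_nonneg (sq_nonneg _)]
  refine le_trans ?_ h
  nlinarith [abs_nonneg (y i), sq_abs (y i)]

/-- the square of the norm as an element of `SS` -/
def qq (psi : (ι → ℝ) → X3 → S2) : (ι → ℝ) → X3 → ℂ := fun y x =>
  ∑ s, (starRingEnd ℂ) (psi y x s) * psi y x s

theorem qq_mem (scl : SclStmt) {psi : (ι → ℝ) → X3 → S2} (h : WW psi) : qq psi ∈ SS ι := by
  obtain ⟨h1, h2, -, -⟩ := scl ι
  have e : qq psi = ∑ s, (fun y x => (starRingEnd ℂ) (psi y x s) * psi y x s) := by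
    funext y x
    simp [qq]
  rw [e]
  exact Submodule.sum_mem _ fun s _ => h1 _ (h2 _ (h s)) _ (h s)

theorem qq_re (psi : (ι → ℝ) → X3 → S2) (y : ι → ℝ) (x : X3) :
    (qq psi y x).re = nsq (psi y x) := by
  unfold qq nsq
  rw [Complex.re_sum]
  refine Finset.sum_congr rfl fun s _ => ?_
  rw [← Complex.normSq_eq_conj_mul_self, Complex.ofReal_re, Complex.normSq_eq_norm_sq]

theorem nsq_NF (scl : SclStmt) (snf : SnfStmt) {psi : (ι → ℝ) → X3 → S2} (h : WW psi) :
    NF (fun y x => nsq (psi y x)) := by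
  have := (snf ι _ (qq_mem scl h)).1
  simp only [qq_re] at this
  exact this

theorem dY2_WW (sdy : SdyStmt) {psi : (ι → ℝ) → X3 → S2} (h : WW psi) (i : ι) :
    WW (dY2 i psi) := fun s => (sdy ι _ (h s) i).1

theorem dqq_re (scl : SclStmt) (sdy : SdyStmt) {psi : (ι → ℝ) → X3 → S2} (h : WW psi) (i : ι)
    (y : ι → ℝ) (x : X3) :
    (dY i (qq psi) y x).re = 2 * pair (psi y x) (dY2 i psi y x) := by
  have h1 := (sdy ι _ (qq_mem scl h) i).2 y x
  have h2 : HasDerivAt (fun t : ℝ => qq psi (Function.update y i t) x)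
      (∑ s, ((starRingEnd ℂ) (dY2 i psi y x s) * psi y x s +
        (starRingEnd ℂ) (psi y x s) * dY2 i psi y x s)) (y i) := by
    have h3 : ∀ s, HasDerivAt (fun t : ℝ => psi (Function.update y i t) x s)
        (dY2 i psi y x s) (y i) := fun s => (sdy ι _ (h s) i).2 y x
    have h4 : ∀ s, HasDerivAt (fun t : ℝ => (starRingEnd ℂ) (psi (Function.update y i t) x s) *
        psi (Function.update y i t) x s)
        ((starRingEnd ℂ) (dY2 i psi y x s) * psi y x s +
        (starRingEnd ℂ) (psi y x s) * dY2 i psi y x s) (y i) := by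
      intro s
      have h5 := (h3 s).star.mul (h3 s)
      simp only [Function.update_eq_self] at h5
      exact h5
    have h6 := HasDerivAt.sum (u := Finset.univ) fun s (_ : s ∈ Finset.univ) => h4 s
    have e : (fun t : ℝ => qq psi (Function.update y i t) x) =
        ∑ s, fun t : ℝ => (starRingEnd ℂ) (psi (Function.update y i t) x s) *
        psi (Function.update y i t) x s := by
      funext t
      simp [qq]
    rw [e]
    exact h6
  rw [h1.unique h2, pair, Complex.re_sum, Complex.re_sum, Finset.mul_sum]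
  refine Finset.sum_congr rfl fun s _ => ?_
  simp only [Complex.add_re, Complex.mul_re, Complex.conj_re, Complex.conj_im]
  ring

/-- Cauchy-Schwarz for the pairing -/
theorem pair_le (a : ℝ) (u v : S2) : a * (2 * pair u v) ≤ 1 / 2 * (a ^ 2 * nsq u) + 2 * nsq v := by
  have h : ∀ s, a * (2 * ((starRingEnd ℂ) (u s) * v s).re) ≤
      1 / 2 * (a ^ 2 * ‖u s‖ ^ 2) + 2 * ‖v s‖ ^ 2 := by
    intro s
    rw [← Complex.normSq_eq_norm_sq, ← Complex.normSq_eq_norm_sq, Complex.normSq_apply,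
      Complex.normSq_apply]
    simp only [Complex.mul_re, Complex.conj_re, Complex.conj_im]
    nlinarith [sq_nonneg (a * (u s).re - 2 * (v s).re), sq_nonneg (a * (u s).im - 2 * (v s).im)]
  have h2 := Finset.sum_le_sum fun s (_ : s ∈ Finset.univ) => h s
  rw [Finset.sum_add_distrib, ← Finset.mul_sum, ← Finset.mul_sum, ← Finset.mul_sum,
    ← Finset.mul_sum, ← Finset.mul_sum, ← Complex.re_sum] at h2
  exact h2

theorem mom1 (scl : SclStmt) (sdy : SdyStmt) (snf : SnfStmt) (nfc : NfcStmt) (nfi : NfiStmt)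
    (ste : SteStmt) {psi : (ι → ℝ) → X3 → S2} (h : WW psi) (i : ι) :
    II (fun y x => y i ^ 2 * nsq (psi y x)) ≤ 2 * II (fun y x => nsq (psi y x)) +
      4 * II (fun y x => nsq (dY2 i psi y x)) := by
  have n0 : NF (fun y x => nsq (psi y x)) := nsq_NF scl snf h
  have n1 : NF (fun y x => nsq (dY2 i psi y x)) := nsq_NF scl snf (dY2_WW sdy h i)
  have n2 : NF (fun y x => y i ^ 2 * nsq (psi y x)) := (nfc ι _ n0).2.1 _ (pby2 i)
  have n3 : NF (fun y x => y i * (2 * pair (psi y x) (dY2 i psi y x))) := by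
    have := (nfc ι _ (snf ι _ (sdy ι _ (qq_mem scl h) i).1).1).2.1 _ (pby i)
    simp only [dqq_re scl sdy h i] at this
    exact this
  have n4 : NF (fun y x => -1 * (y i ^ 2 * nsq (psi y x))) := (nfc ι _ n2).2.1 _ (pbc (-1))
  have n5 : NF (fun y x => 1 / 2 * (y i ^ 2 * nsq (psi y x))) := (nfc ι _ n2).2.1 _ (pbc (1 / 2))
  have n6 : NF (fun y x => 2 * nsq (dY2 i psi y x)) := (nfc ι _ n1).2.1 _ (pbc 2)
  have s0 := ste ι _ (qq_mem scl h) i (fun y => y i) (fun _ => 1) (pby i) (pbc 1) (by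
    intro y
    simp only [Function.update_self]
    exact hasDerivAt_id (y i))
  simp only [dqq_re scl sdy h i, qq_re] at s0
  have s1 : II (fun y x => y i * (2 * pair (psi y x) (dY2 i psi y x))) +
      (II (fun y x => nsq (psi y x)) + -1 * II (fun y x => y i ^ 2 * nsq (psi y x))) = 0 := by
    rw [← II_cmul, ← II_add nfi n0 n4, ← II_add nfi n3 ((nfc ι _ n0).1 _ n4).1, ← s0]
    congr 1
    funext y x
    ring
  have s2 : II (fun y x => y i * (2 * pair (psi y x) (dY2 i psi y x))) ≤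
      1 / 2 * II (fun y x => y i ^ 2 * nsq (psi y x)) + 2 * II (fun y x => nsq (dY2 i psi y x)) := by
    rw [← II_cmul, ← II_cmul, ← II_add nfi n5 n6]
    exact II_mono nfi n3 ((nfc ι _ n5).1 _ n6).1 fun y x => pair_le (y i) _ _
  linarith

theorem mom (scl : SclStmt) (sdy : SdyStmt) (snf : SnfStmt) (nfc : NfcStmt) (nfi : NfiStmt)
    (ste : SteStmt) : MomStmt := by
  intro ι _ _ psi h
  have n0 : NF (fun y x => nsq (psi y x)) := nsq_NF scl snf h
  have n1 : ∀ i, NF (fun y x => nsq (dY2 i psi y x)) := fun i => nsq_NF scl snf (dY2_WW sdy h i)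
  have n2 : ∀ i : ι, NF (fun y x => y i ^ 2 * nsq (psi y x)) := fun i =>
    (nfc ι _ n0).2.1 _ (pby2 i)
  have e1 : II (fun y x => nn y * nsq (psi y x)) =
      ∑ i, II (fun y x => y i ^ 2 * nsq (psi y x)) := by
    rw [← II_sum nfi Finset.univ _ n2]
    congr 1
    funext y x
    rw [nn, Finset.sum_mul]
  have e2 : II (fun y x => ∑ i, nsq (dY2 i psi y x)) = ∑ i, II (fun y x => nsq (dY2 i psi y x)) :=
    II_sum nfi Finset.univ _ n1
  rw [e1, e2]
  calc ∑ i, II (fun y x => y i ^ 2 * nsq (psi y x)) ≤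
      ∑ i : ι, (2 * II (fun y x => nsq (psi y x)) + 4 * II (fun y x => nsq (dY2 i psi y x))) :=
        Finset.sum_le_sum fun i _ => mom1 scl sdy snf nfc nfi ste h i
    _ = _ := by
        rw [Finset.sum_add_distrib, Finset.sum_const, Finset.card_univ, nsmul_eq_mul,
          ← Finset.mul_sum]
        ring

end Pool.Agent.MBX.H91
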